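import Pool.Agent.Helper88.PP.Goals
import Pool.Agent.Helper75.LG.PH
import Pool.Agent.Helper31.Tot.MP

/-!
# MA: bounds for the masses of the rough squarefree numbers
-/

set_option autoImplicit false

open Finset Filter Topology

open scoped Classical

namespace Pool.Agent.Helper24.PP

open Pool.Agent.Helper88.PP Pool.Agent.Helper75.LG Pool.Agent.Helper31.Tot Helper56

/-- `n ↦ 1/n` as a monoid hom -/
noncomputable def rec : ℕ →* ℝ where
  toFun n := ((n : ℝ))⁻¹
  map_one' := by simp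
  map_mul' a b := by push_cast; rw [mul_inv]

theorem sum_inv_le (S A : Finset ℕ) (h : ∀ n ∈ A, n ∈ Nat.factoredNumbers S) :
    ∑ n ∈ A, 1 / (n : ℝ) ≤ ∏ p ∈ S with p.Prime, (1 - 1 / (p : ℝ))⁻¹ := by
  have h0 := (EulerProduct.summable_and_hasSum_factoredNumbers_prod_filter_prime_geometric
    (f := rec) (by
      intro p hp
      have : (2 : ℝ) ≤ p := by exact_mod_cast hp.two_le
      change ‖((p : ℝ))⁻¹‖ < 1
      rw [norm_inv, Real.norm_eq_abs, abs_of_pos (by linarith)]
      exact inv_lt_one_of_one_lt₀ (by linarith)) S).2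
  have h1 : ∑ m ∈ A.subtype (· ∈ Nat.factoredNumbers S), rec m
      ≤ ∏ p ∈ S with p.Prime, (1 - rec p)⁻¹ := by
    refine sum_le_hasSum _ (fun m _ => ?_) h0
    change 0 ≤ (((m : ℕ) : ℝ))⁻¹
    positivity
  have h2 : ∑ m ∈ A.subtype (· ∈ Nat.factoredNumbers S), rec m = ∑ n ∈ A, 1 / (n : ℝ) := by
    rw [Finset.sum_subtype_of_mem (fun n => rec n) h]
    refine Finset.sum_congr rfl fun n _ => ?_
    rw [one_div]; rfl
  rw [h2] at h1
  refine h1.trans (le_of_eq (Finset.prod_congr rfl fun p _ => ?_))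
  rw [one_div]; rfl

theorem prod_al (A : Finset ℕ) :
    ∏ p ∈ A.filter Nat.Prime, (1 - 1 / (p : ℝ))⁻¹ = Real.exp (∑ k ∈ A, al k) := by
  rw [Real.exp_sum, Finset.prod_filter]
  refine Finset.prod_congr rfl fun n _ => ?_
  unfold al
  split_ifs with hp
  · have h2 : (2 : ℝ) ≤ n := by exact_mod_cast hp.two_le
    have h3 : (0 : ℝ) < 1 - 1 / (n : ℝ) := by
      rw [sub_pos, div_lt_one (by linarith)]
      linarith
    rw [Real.exp_neg, Real.exp_log h3]
  · rw [Real.exp_zero]

/-- the radical of the rough part -/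
noncomputable def rd (z n : ℕ) : ℕ := ∏ p ∈ n.primeFactors.filter (fun p => z < p), p

theorem rd_primeFactors (z n : ℕ) : (rd z n).primeFactors = n.primeFactors.filter (fun p => z < p) := by
  unfold rd
  refine Nat.primeFactors_prod fun p hp => ?_
  exact Nat.prime_of_mem_primeFactors (mem_filter.1 hp).1

theorem rd_dvd (z n : ℕ) : rd z n ∣ n := by
  unfold rd
  refine Finset.prod_primes_dvd n (fun p hp => ?_) (fun p hp => ?_)
  · exact (Nat.prime_of_mem_primeFactors (mem_filter.1 hp).1).prime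
  · exact Nat.dvd_of_mem_primeFactors (mem_filter.1 hp).1

theorem rd_sf (z n : ℕ) : Sf z (rd z n) := by
  constructor
  · unfold rd
    refine Finset.squarefree_prod_of_pairwise_isCoprime ?_ ?_
    · intro p hp q hq hpq
      have hp' := Nat.prime_of_mem_primeFactors (mem_filter.1 (Finset.mem_coe.1 hp)).1
      have hq' := Nat.prime_of_mem_primeFactors (mem_filter.1 (Finset.mem_coe.1 hq)).1
      exact Nat.coprime_iff_isRelPrime.1 ((Nat.coprime_primes hp' hq').2 hpq)
    · intro p hp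
      exact (Nat.prime_of_mem_primeFactors (mem_filter.1 hp).1).squarefree
  · intro p hp hd
    have hne : rd z n ≠ 0 := by
      unfold rd
      exact Finset.prod_ne_zero_iff.2 fun p hp =>
        (Nat.prime_of_mem_primeFactors (mem_filter.1 hp).1).ne_zero
    have : p ∈ (rd z n).primeFactors := Nat.mem_primeFactors.2 ⟨hp, hd, hne⟩
    rw [rd_primeFactors] at this
    exact (mem_filter.1 this).2

theorem fiber_le (z X s : ℕ) (hs : Sf z s) (hs1 : 1 ≤ s) :
    ∑ n ∈ (Ico 1 X).filter (fun n => rd z n = s), 1 / (n : ℝ)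
      ≤ Real.exp (ax z) * (1 / (Nat.totient s : ℝ)) := by
  set N := (Ico 1 X).filter (fun n => rd z n = s) with hN
  have hdvd : ∀ n ∈ N, s ∣ n := by
    intro n hn
    have := (mem_filter.1 hn).2
    rw [← this]
    exact rd_dvd z n
  have hinj : Set.InjOn (fun n => n / s) (N : Set ℕ) := by
    intro a ha b hb hab
    have h1 := Nat.div_mul_cancel (hdvd a ha)
    have h2 := Nat.div_mul_cancel (hdvd b hb)
    simp only at hab
    rw [← h1, ← h2, hab]
  have h1 : ∑ n ∈ N, 1 / (n : ℝ) = (1 / (s : ℝ)) * ∑ a ∈ N.image (fun n => n / s), 1 / (a : ℝ) := by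
    rw [Finset.sum_image hinj, Finset.mul_sum]
    refine Finset.sum_congr rfl fun n hn => ?_
    have hcast : ((n / s : ℕ) : ℝ) = (n : ℝ) / s := Nat.cast_div (hdvd n hn) (by positivity)
    have hs0 : (s : ℝ) ≠ 0 := by positivity
    have hn0 : (n : ℝ) ≠ 0 := by
      have : 1 ≤ n := (mem_Ico.1 (mem_filter.1 hn).1).1
      positivity
    rw [hcast]
    field_simp
  have h2 : ∑ a ∈ N.image (fun n => n / s), 1 / (a : ℝ)
      ≤ ∏ p ∈ (Ioc 0 z ∪ s.primeFactors) with p.Prime, (1 - 1 / (p : ℝ))⁻¹ := by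
    refine sum_inv_le _ _ fun a ha => ?_
    obtain ⟨n, hn, rfl⟩ := mem_image.1 ha
    rw [Nat.mem_factoredNumbers']
    intro p hp hpd
    have hpn : p ∣ n := hpd.trans (Nat.div_dvd_of_dvd (hdvd n hn))
    rw [mem_union, mem_Ioc]
    rcases le_or_gt p z with h | h
    · exact Or.inl ⟨hp.pos, h⟩
    · right
      have hn1 : 1 ≤ n := (mem_Ico.1 (mem_filter.1 hn).1).1
      have : p ∈ (rd z n).primeFactors := by
        rw [rd_primeFactors]
        exact mem_filter.2 ⟨Nat.mem_primeFactors.2 ⟨hp, hpn, by omega⟩, h⟩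
      rwa [(mem_filter.1 hn).2] at this
  have h3 : ∏ p ∈ (Ioc 0 z ∪ s.primeFactors) with p.Prime, (1 - 1 / (p : ℝ))⁻¹
      = Real.exp (ax z) * ((s : ℝ) / Nat.totient s) := by
    rw [Finset.filter_union, Finset.prod_union, prod_al, ax_nat, ratio_eq s (by omega)]
    · congr 1
      refine Finset.prod_congr ?_ fun _ _ => rfl
      exact Finset.filter_true_of_mem fun p hp => Nat.prime_of_mem_primeFactors hp
    · rw [Finset.disjoint_left]
      intro p hp hp2
      have h1 := (mem_Ioc.1 (mem_filter.1 hp).1).2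
      have h2 := (mem_filter.1 hp2).1
      have h3 := hs.2 p (Nat.prime_of_mem_primeFactors h2) (Nat.dvd_of_mem_primeFactors h2)
      omega
  rw [h1]
  calc (1 / (s : ℝ)) * ∑ a ∈ N.image (fun n => n / s), 1 / (a : ℝ)
      ≤ (1 / (s : ℝ)) * (Real.exp (ax z) * ((s : ℝ) / Nat.totient s)) := by
        rw [← h3]
        exact mul_le_mul_of_nonneg_left h2 (by positivity)
    _ = _ := by
        have hs0 : (s : ℝ) ≠ 0 := by positivity
        have ht0 : (Nat.totient s : ℝ) ≠ 0 := by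
          have := Nat.totient_pos.2 (show 0 < s by omega)
          positivity
        field_simp

theorem lower (z X : ℕ) :
    ∑ n ∈ Ico 1 X, 1 / (n : ℝ) ≤ Real.exp (ax z) * ∑ s ∈ SS z X, 1 / (Nat.totient s : ℝ) := by
  have hmap : ∀ n ∈ Ico 1 X, rd z n ∈ SS z X := by
    intro n hn
    rw [mem_Ico] at hn
    unfold SS
    rw [mem_filter, mem_Ico]
    have h1 : rd z n ≤ n := Nat.le_of_dvd (by omega) (rd_dvd z n)
    have h2 : 1 ≤ rd z n := Nat.pos_of_dvd_of_pos (rd_dvd z n) (by omega)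
    exact ⟨⟨h2, by omega⟩, rd_sf z n⟩
  rw [← Finset.sum_fiberwise_of_maps_to hmap, Finset.mul_sum]
  refine Finset.sum_le_sum fun s hs => ?_
  unfold SS at hs
  rw [mem_filter, mem_Ico] at hs
  exact fiber_le z X s hs.2 hs.1.1

/-- Euler product bound for sums over squarefree rough numbers -/
theorem upper (g : ℕ → ℝ) (hg : ∀ p, 0 ≤ g p) (z X : ℕ) :
    ∑ s ∈ SS z X, ∏ p ∈ s.primeFactors, g p ≤ ∏ p ∈ (Ioc z X).filter Nat.Prime, (1 + g p) := by
  rw [Finset.prod_one_add]
  have hinj : Set.InjOn Nat.primeFactors (SS z X : Set ℕ) := by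
    intro a ha b hb hab
    have h1 := (mem_filter.1 ha).2.1
    have h2 := (mem_filter.1 hb).2.1
    rw [← Nat.prod_primeFactors_of_squarefree h1, ← Nat.prod_primeFactors_of_squarefree h2, hab]
  rw [← Finset.sum_image (f := fun S => ∏ p ∈ S, g p) hinj]
  refine Finset.sum_le_sum_of_subset_of_nonneg ?_ fun S _ _ => Finset.prod_nonneg fun p _ => hg p
  intro S hS
  obtain ⟨s, hs, rfl⟩ := mem_image.1 hS
  unfold SS at hs
  rw [mem_filter, mem_Ico] at hs
  rw [mem_powerset]
  intro p hp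
  have hpp := Nat.prime_of_mem_primeFactors hp
  have hpd := Nat.dvd_of_mem_primeFactors hp
  rw [mem_filter, mem_Ioc]
  have := Nat.le_of_dvd (by omega) hpd
  exact ⟨⟨hs.2.2 p hpp hpd, by omega⟩, hpp⟩

theorem one_div_totient (s : ℕ) (hs : Squarefree s) :
    1 / (Nat.totient s : ℝ) = ∏ p ∈ s.primeFactors, ((1 - 1 / (p : ℝ))⁻¹ - 1) := by
  have h1 := ratio_eq s hs.ne_zero
  have h2 : (s : ℝ) = ∏ p ∈ s.primeFactors, (p : ℝ) := by
    conv_lhs => rw [← Nat.prod_primeFactors_of_squarefree hs]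
    push_cast
    rfl
  have hs0 : (s : ℝ) ≠ 0 := by exact_mod_cast hs.ne_zero
  have h3 : 1 / (Nat.totient s : ℝ) = (∏ p ∈ s.primeFactors, (1 - 1 / (p : ℝ))⁻¹) / s := by
    rw [← h1]
    have ht0 : (Nat.totient s : ℝ) ≠ 0 := by
      have := Nat.totient_pos.2 (Nat.pos_of_ne_zero hs.ne_zero)
      positivity
    field_simp
  rw [h3, h2, ← Finset.prod_div_distrib]
  refine Finset.prod_congr rfl fun p hp => ?_
  have hp2 : (2 : ℝ) ≤ p := by exact_mod_cast (Nat.prime_of_mem_primeFactors hp).two_le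
  have h4 : (p : ℝ) - 1 ≠ 0 := by linarith
  have h5 : (p : ℝ) ≠ 0 := by linarith
  have h6 : 1 - 1 / (p : ℝ) ≠ 0 := by
    rw [sub_ne_zero, ne_comm, ne_eq, div_eq_one_iff_eq h5]
    linarith
  field_simp
  ring

theorem three_pow (s : ℕ) (hs : Squarefree s) :
    (3 : ℝ) ^ s.primeFactors.card / s = ∏ p ∈ s.primeFactors, (3 / (p : ℝ)) := by
  have h2 : (s : ℝ) = ∏ p ∈ s.primeFactors, (p : ℝ) := by
    conv_lhs => rw [← Nat.prod_primeFactors_of_squarefree hs]
    push_cast
    rfl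
  rw [Finset.prod_div_distrib, Finset.prod_const, ← h2]

/-- the bounds for the masses -/
theorem ma : StmtMA := by
  obtain ⟨C, hC0, hC⟩ := ax_bound
  refine ⟨Real.exp (-C), Real.exp (2 * C), Real.exp_pos _, Real.one_le_exp (by linarith), ?_⟩
  intro z m hz hm
  have hz2 : (2 : ℝ) ≤ z := by exact_mod_cast hz
  have hm1 : (1 : ℝ) ≤ m := by exact_mod_cast hm
  have hlz : 0 < Real.log z := Real.log_pos (by linarith)
  have hX : Real.log ((z ^ m : ℕ) : ℝ) = m * Real.log z := by
    push_cast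
    rw [Real.log_pow]
  have hzX : z ≤ z ^ m := Nat.le_self_pow (by omega) z
  -- the product over the primes in `(z, z^m]`
  have hprod : ∏ p ∈ (Ioc z (z ^ m)).filter Nat.Prime, (1 - 1 / (p : ℝ))⁻¹
      ≤ Real.exp (2 * C) * m := by
    rw [prod_al, ← ax_sub hzX]
    have h1 := abs_le.1 (hC (z ^ m))
    have h2 := abs_le.1 (hC z)
    have h3 : Real.log (Real.log ((z ^ m : ℕ) : ℝ)) = Real.log m + Real.log (Real.log z) := by
      rw [hX, Real.log_mul (by linarith) hlz.ne']
    have h4 : ax ((z ^ m : ℕ) : ℝ) - ax z ≤ 2 * C + Real.log m := by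
      rw [h3] at h1
      linarith [h1.2, h2.1]
    calc Real.exp (ax ((z ^ m : ℕ) : ℝ) - ax z) ≤ Real.exp (2 * C + Real.log m) :=
          Real.exp_le_exp.2 h4
      _ = Real.exp (2 * C) * m := by rw [Real.exp_add, Real.exp_log (by linarith)]
  have hfac : ∀ p ∈ (Ioc z (z ^ m)).filter Nat.Prime, 0 < 1 - 1 / (p : ℝ) ∧ (2 : ℝ) ≤ p := by
    intro p hp
    have hp2 : (2 : ℝ) ≤ p := by exact_mod_cast (mem_filter.1 hp).2.two_le
    refine ⟨?_, hp2⟩
    rw [sub_pos, div_lt_one (by linarith)]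
    linarith
  refine ⟨?_, ?_, ?_⟩
  · -- lower bound
    have h1 := lower z (z ^ m)
    have h2 : Real.log ((z ^ m : ℕ) : ℝ) ≤ ∑ n ∈ Ico 1 (z ^ m), 1 / (n : ℝ) := by
      have hXpos : 1 ≤ z ^ m := Nat.one_le_pow _ _ (by omega)
      obtain ⟨k, hk⟩ : ∃ k, z ^ m = k + 1 := ⟨z ^ m - 1, by omega⟩
      have h3 := log_add_one_le_harmonic k
      rw [harmonic_eq_sum_Icc] at h3
      have h4 : ((∑ i ∈ Icc 1 k, ((i : ℚ))⁻¹ : ℚ) : ℝ) = ∑ n ∈ Ico 1 (z ^ m), 1 / (n : ℝ) := by
        push_cast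
        refine Finset.sum_congr ?_ fun n _ => by rw [one_div]
        ext n
        rw [mem_Icc, mem_Ico, hk]
        omega
      rw [h4] at h3
      rw [hk] at h3 ⊢
      push_cast
      push_cast at h3
      exact h3
    have h3 : Real.exp (ax z) ≤ Real.exp C * Real.log z := by
      have h2 := abs_le.1 (hC z)
      calc Real.exp (ax z) ≤ Real.exp (C + Real.log (Real.log z)) :=
            Real.exp_le_exp.2 (by linarith [h2.2])
        _ = _ := by rw [Real.exp_add, Real.exp_log hlz]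
    have hS0 : 0 ≤ ∑ s ∈ SS z (z ^ m), 1 / (Nat.totient s : ℝ) :=
      Finset.sum_nonneg fun s _ => by positivity
    have h4 : m * Real.log z ≤ Real.exp C * Real.log z * ∑ s ∈ SS z (z ^ m), 1 / (Nat.totient s : ℝ) := by
      rw [← hX]
      exact h2.trans (h1.trans (mul_le_mul_of_nonneg_right h3 hS0))
    have h5 : (m : ℝ) ≤ Real.exp C * ∑ s ∈ SS z (z ^ m), 1 / (Nat.totient s : ℝ) := by
      refine le_of_mul_le_mul_right ?_ hlz
      calc (m : ℝ) * Real.log z ≤ _ := h4
        _ = _ := by ring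
    rw [Real.exp_neg]
    have hE := Real.exp_pos C
    rw [inv_mul_le_iff₀ hE]
    exact h5
  · calc ∑ s ∈ SS z (z ^ m), 1 / (Nat.totient s : ℝ)
        = ∑ s ∈ SS z (z ^ m), ∏ p ∈ s.primeFactors, (if p.Prime then ((1 - 1 / (p : ℝ))⁻¹ - 1) else 0) := by
          refine Finset.sum_congr rfl fun s hs => ?_
          rw [one_div_totient s (mem_filter.1 hs).2.1]
          refine Finset.prod_congr rfl fun p hp => ?_
          rw [if_pos (Nat.prime_of_mem_primeFactors hp)]
      _ ≤ ∏ p ∈ (Ioc z (z ^ m)).filter Nat.Prime,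
            (1 + if p.Prime then ((1 - 1 / (p : ℝ))⁻¹ - 1) else 0) := by
          refine upper _ (fun p => ?_) z _
          split_ifs with hp
          · have hp2 : (2 : ℝ) ≤ p := by exact_mod_cast hp.two_le
            have h3 : (0 : ℝ) < 1 - 1 / (p : ℝ) := by
              rw [sub_pos, div_lt_one (by linarith)]
              linarith
            have h4 : 1 - 1 / (p : ℝ) ≤ 1 := by
              have : 0 ≤ 1 / (p : ℝ) := by positivity
              linarith
            have := one_le_inv_iff₀.2 ⟨h3, h4⟩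
            linarith
          · exact le_refl _
      _ = ∏ p ∈ (Ioc z (z ^ m)).filter Nat.Prime, (1 - 1 / (p : ℝ))⁻¹ := by
          refine Finset.prod_congr rfl fun p hp => ?_
          rw [if_pos (mem_filter.1 hp).2]
          ring
      _ ≤ _ := hprod
  · calc ∑ s ∈ SS z (z ^ m), (3 : ℝ) ^ s.primeFactors.card / s
        = ∑ s ∈ SS z (z ^ m), ∏ p ∈ s.primeFactors, (3 / (p : ℝ)) := by
          refine Finset.sum_congr rfl fun s hs => ?_
          exact three_pow s (mem_filter.1 hs).2.1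
      _ ≤ ∏ p ∈ (Ioc z (z ^ m)).filter Nat.Prime, (1 + 3 / (p : ℝ)) :=
          upper _ (fun p => by positivity) z _
      _ ≤ ∏ p ∈ (Ioc z (z ^ m)).filter Nat.Prime, ((1 - 1 / (p : ℝ))⁻¹) ^ 3 := by
          refine Finset.prod_le_prod (fun p _ => by positivity) fun p hp => ?_
          obtain ⟨h1, h2⟩ := hfac p hp
          have hx0 : 0 ≤ 1 / (p : ℝ) := by positivity
          have h3 : 1 + 1 / (p : ℝ) ≤ (1 - 1 / (p : ℝ))⁻¹ := by
            rw [le_inv_comm₀ (by positivity) h1, inv_eq_one_div, le_div_iff₀ (by positivity)]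
            nlinarith
          calc 1 + 3 / (p : ℝ) ≤ (1 + 1 / (p : ℝ)) ^ 3 := by
                have : (3 : ℝ) / p = 3 * (1 / p) := by ring
                rw [this]
                nlinarith [pow_nonneg hx0 2, pow_nonneg hx0 3]
            _ ≤ _ := pow_le_pow_left₀ (by positivity) h3 3
      _ = (∏ p ∈ (Ioc z (z ^ m)).filter Nat.Prime, (1 - 1 / (p : ℝ))⁻¹) ^ 3 := by
          rw [Finset.prod_pow]
      _ ≤ _ := by
          refine pow_le_pow_left₀ (Finset.prod_nonneg fun p hp => ?_) hprod 3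
          exact inv_nonneg.2 (hfac p hp).1.le

end Pool.Agent.Helper24.PP

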